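import Pool.Agent.W957.CH.Stm2

/-! Project CH (MP_d275fd_co, S11629): part 4A. -/

set_option autoImplicit false

namespace Pool.Agent.W538.CH

open Finset Pool.Agent.W957.CH

theorem mem_nbr {V : Type} {G : SimpleGraph V} {A P : Finset V} {w : V} :
    w ∈ nbr G A P ↔ w ∈ A ∧ w ∉ P ∧ ∃ p ∈ P, G.Adj p w := by
  unfold nbr
  simp only [Finset.mem_filter]

theorem mem_sg {V : Type} (c : ℕ → V) (a b : ℕ) (x : V) :
    x ∈ sg c a b ↔ ∃ p, a ≤ p ∧ p ≤ b ∧ c p = x := by
  unfold sg
  simp only [List.mem_map, List.mem_range'_1]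
  constructor
  · rintro ⟨p, ⟨h1, h2⟩, rfl⟩
    exact ⟨p, h1, by omega, rfl⟩
  · rintro ⟨p, h1, h2, rfl⟩
    exact ⟨p, ⟨h1, by omega⟩, rfl⟩

theorem sg_pth {V : Type} {G : SimpleGraph V} {n : ℕ} {c : ℕ → V} (h : CR G n c) {a b : ℕ}
    (hb : b < n) : Pth G (sg c a b) := by
  constructor
  · unfold sg
    apply List.Nodup.map_on
    · intro x hx y hy hxy
      rw [List.mem_range'_1] at hx hy
      exact h.inj x y (by omega) (by omega) hxy
    · exact List.nodup_range'
  · unfold sg
    rw [List.isChain_map]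
    rw [List.isChain_iff_getElem]
    intro i hi
    simp only [List.length_range'] at hi
    simp only [List.getElem_range']
    have := h.adj (a + 1 * i) (by omega)
    rw [show a + 1 * (i + 1) = a + 1 * i + 1 by ring]
    exact this

theorem sg_head {V : Type} (c : ℕ → V) {a b : ℕ} (hab : a ≤ b) :
    (sg c a b).head? = some (c a) := by
  unfold sg
  rw [List.head?_map, show b + 1 - a = (b - a) + 1 by omega, List.range'_succ]
  rfl

theorem sg_last {V : Type} (c : ℕ → V) {a b : ℕ} (hab : a ≤ b) :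
    (sg c a b).getLast? = some (c b) := by
  unfold sg
  rw [List.getLast?_map, show b + 1 - a = (b - a) + 1 by omega, List.getLast?_range']
  simp only [Nat.add_eq_zero_iff, one_ne_zero, and_false, if_false, Option.map_some]
  congr 2
  omega

theorem sg_len {V : Type} (c : ℕ → V) (a b : ℕ) : (sg c a b).length = b + 1 - a := by
  unfold sg
  simp

theorem cyc_of {V : Type} {G : SimpleGraph V} {l R : List V} {a b u v : V}
    (hl : PF G a b l) (hR : PF G u v R) (hd : ∀ x ∈ l, x ∉ R) (h1 : G.Adj a u) (h2 : G.Adj v b)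
    (h3 : 3 ≤ l.length + R.length) : Cyc G (l ++ R.reverse) := by
  obtain ⟨⟨hn1, hc1⟩, hh1, ht1⟩ := hl
  obtain ⟨⟨hn2, hc2⟩, hh2, ht2⟩ := hR
  refine ⟨by simpa using h3, ⟨?_, ?_⟩, ?_⟩
  · rw [List.nodup_append]
    refine ⟨hn1, List.nodup_reverse.2 hn2, ?_⟩
    intro x hx y hy hxy
    subst hxy
    exact hd x hx (List.mem_reverse.1 hy)
  · rw [List.isChain_append]
    refine ⟨hc1, ?_, ?_⟩
    · rw [List.isChain_reverse]
      exact hc2.imp fun x y h => h.symm
    · intro x hx y hy
      rw [ht1] at hx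
      rw [List.head?_reverse, ht2] at hy
      simp only [Option.mem_def, Option.some.injEq] at hx hy
      subst hx hy
      exact h2.symm
  · intro x y hx hy
    rw [List.head?_append, hh1] at hx
    rw [List.getLast?_append, List.getLast?_reverse, hh2] at hy
    simp only [Option.some_or, Option.some.injEq] at hx hy
    subst hx hy
    exact h1.symm

theorem t_4A (h1 : S_PR1) (h2 : S_EAR) (h3 : S_X) (h4 : S_NC) (h5 : S_PC0) : S_4A := by
  intro V _ X n c τ σ i j K hS hij hn hcl hK hi hj
  obtain ⟨hok, hgood, hLn, hpar, hbig⟩ := hS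
  obtain ⟨hcon, hKA, hKd, hKn⟩ := hK
  have hK' : Comp X n c K := ⟨hcon, hKA, hKd, hKn⟩
  obtain ⟨R, hR, hRK⟩ := (h5 V X n c hok hgood).2.2.2 i j K hK' hi hj
  have hjn : j < n := (hcl j hij.le le_rfl).1
  have hfree : Free X.G n c i j := fun p h1 h2 => (hcl p h1 h2).2.2.1
  have hear := h2 V X n c i j R hok hgood hij hjn hfree hn hR
  have hrer := h1 V X n c i j R hgood hij hjn hfree hR
  have hcard : (Ioo i j).card = j - i - 1 := Nat.card_Ioo i j
  obtain ⟨K', hK'con, hK'A, hK'mem, hK'l, hK'B, hK'n, hK'c⟩ :=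
    h4 V X n c (sg c 0 i ++ R ++ sg c j (n - 1)) (Ioo i j) R (i + 1) (j - 1) hok hgood hLn hrer
      (by rw [hcard]; omega) (by omega)
      (fun r h1 h2 => by rw [Finset.mem_Ioo]; omega)
      (fun r hr => by rw [Finset.mem_Ioo] at hr; exact hcl r hr.1.le hr.2.le)
  have hKB : Disjoint K X.B := (hcl i le_rfl hij.le).2.2.2 K hK' hi
  have hKc : (nbr X.G X.A K).card ≤ beta X.m 0 := by
    have h := h3 V X n c K 0 hok hgood hcon hKA hKd (by
      rw [Finset.sdiff_eq_empty_iff_subset.2 hKn, Finset.disjoint_iff_inter_eq_empty.1 hKB]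
      simp)
    rwa [Finset.inter_eq_left.2 hKn] at h
  -- the new set
  set P : Finset V := K ∪ K' with hP
  have hPA : P ⊆ X.A := Finset.union_subset hKA hK'A
  have hPB : Disjoint P X.B := Finset.disjoint_union_left.2 ⟨hKB, hK'B⟩
  have hPn : P.Nonempty := hcon.1.mono Finset.subset_union_left
  have hnb : nbr X.G X.A P ⊆ nbr X.G X.A K ∪ nbr X.G X.A K' := by
    intro w hw
    unfold nbr at hw ⊢
    simp only [Finset.mem_union, Finset.mem_filter, hP] at hw ⊢
    obtain ⟨h1, h2, p, hp, h3⟩ := hw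
    push Not at h2
    rcases hp with hp | hp
    · exact Or.inl ⟨h1, h2.1, p, hp, h3⟩
    · exact Or.inr ⟨h1, h2.2, p, hp, h3⟩
  have hnc : (nbr X.G X.A P).card ≤ 2 * beta X.m 0 :=
    (Finset.card_le_card hnb).trans ((Finset.card_union_le _ _).trans (by omega))
  have hout : ∀ p, p < n → (p ≤ i ∨ j ≤ p) → c p ∉ P := by
    intro p hp hp' hm
    rcases Finset.mem_union.1 hm with hm | hm
    · exact Finset.disjoint_left.1 hKd hm (Finset.mem_image.2 ⟨p, Finset.mem_range.2 hp, rfl⟩)
    · refine Finset.disjoint_left.1 hK'l hm (List.mem_toFinset.2 ?_)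
      simp only [List.mem_append, mem_sg]
      rcases hp' with hp' | hp'
      · exact Or.inl (Or.inl ⟨p, Nat.zero_le _, hp', rfl⟩)
      · exact Or.inr ⟨p, hp', by omega, rfl⟩
  have hbb : beta X.m 0 + 8 ≤ bb X.m τ := by
    have hmono : beta X.m 0 ≤ beta X.m (4 * τ + 8) := by
      unfold beta
      gcongr <;> omega
    unfold bb
    omega
  have hne : P ∪ nbr X.G X.A P ≠ X.A := by
    intro heq
    have hsub : (Finset.range (i + 1)).image c ∪ (Finset.Ico j n).image c ⊆ nbr X.G X.A P := by
      intro w hw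
      rw [Finset.mem_union, Finset.mem_image, Finset.mem_image] at hw
      have : ∃ p, p < n ∧ (p ≤ i ∨ j ≤ p) ∧ c p = w := by
        rcases hw with ⟨p, hp, rfl⟩ | ⟨p, hp, rfl⟩
        · rw [Finset.mem_range] at hp
          exact ⟨p, by omega, by omega, rfl⟩
        · rw [Finset.mem_Ico] at hp
          exact ⟨p, by omega, by omega, rfl⟩
      obtain ⟨p, hp1, hp2, rfl⟩ := this
      have h1 : c p ∈ P ∪ nbr X.G X.A P := by rw [heq]; exact hgood.sub p hp1
      exact (Finset.mem_union.1 h1).resolve_left (hout p hp1 hp2)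
    have hci : ((Finset.range (i + 1)).image c).card = i + 1 := by
      rw [Finset.card_image_of_injOn, Finset.card_range]
      intro x hx y hy hxy
      simp only [Finset.coe_range, Set.mem_Iio] at hx hy
      exact hgood.cr.inj x y (by omega) (by omega) hxy
    have hcj : ((Finset.Ico j n).image c).card = n - j := by
      rw [Finset.card_image_of_injOn, Nat.card_Ico]
      intro x hx y hy hxy
      simp only [Finset.coe_Ico, Set.mem_Ico] at hx hy
      exact hgood.cr.inj x y (by omega) (by omega) hxy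
    have hdis : Disjoint ((Finset.range (i + 1)).image c) ((Finset.Ico j n).image c) := by
      rw [Finset.disjoint_left]
      intro w h1 h2
      rw [Finset.mem_image] at h1 h2
      obtain ⟨p, hp, rfl⟩ := h1
      obtain ⟨q, hq, hpq⟩ := h2
      rw [Finset.mem_range] at hp
      rw [Finset.mem_Ico] at hq
      have := hgood.cr.inj q p (by omega) (by omega) hpq
      omega
    have hle := Finset.card_le_card hsub
    rw [Finset.card_union_of_disjoint hdis, hci, hcj] at hle
    omega
  obtain ⟨⟨u, v, hPF, hau, hvb⟩, hRA⟩ := hR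
  have hRne : R ≠ [] := by
    rintro rfl
    simp [PF] at hPF
  have hlen : 1 ≤ R.length := List.length_pos_iff.2 hRne
  have hRm : ∀ r ∈ R, r ∈ P := fun r hr => Finset.mem_union_left _ (hRK r hr)
  have huR : u ∈ R := List.mem_of_mem_head? (by rw [hPF.2.1]; rfl)
  have hvR : v ∈ R := List.mem_of_getLast? hPF.2.2
  have hcyc : Cyc X.G (sg c i j ++ R.reverse) := by
    refine cyc_of (a := c i) (b := c j) (u := u) (v := v)
      ⟨sg_pth hgood.cr hjn, sg_head c hij.le, sg_last c hij.le⟩ hPF ?_ hau hvb ?_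
    · intro x hx hxR
      obtain ⟨p, hp1, hp2, rfl⟩ := (mem_sg c i j x).1 hx
      exact (hRA _ hxR).2 (Finset.mem_image.2 ⟨p, Finset.mem_range.2 (by omega), rfl⟩)
    · rw [sg_len]
      omega
  have hmem : ∀ x ∈ sg c i j ++ R.reverse, x ∈ P ∪ nbr X.G X.A P := by
    intro x hx
    rcases List.mem_append.1 hx with hx | hx
    · obtain ⟨p, hp1, hp2, rfl⟩ := (mem_sg c i j x).1 hx
      rcases Nat.lt_or_ge i p with h | h
      · rcases Nat.lt_or_ge p j with h' | h'
        · exact Finset.mem_union_left _ (Finset.mem_union_right _ (hK'mem p (by omega) (by omega)))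
        · obtain rfl : p = j := by omega
          refine Finset.mem_union_right _ ?_
          exact mem_nbr.2 ⟨hgood.sub p hjn, hout p hjn (Or.inr le_rfl), v, hRm v hvR, hvb⟩
      · obtain rfl : p = i := by omega
        refine Finset.mem_union_right _ ?_
        exact mem_nbr.2 ⟨hgood.sub p (by omega), hout p (by omega) (Or.inl le_rfl), u, hRm u huR, hau.symm⟩
    · exact Finset.mem_union_left _ (hRm x (List.mem_reverse.1 hx))
  have hreg := (hok.reg P hPA hPn hPB hne).2 _ hcyc hmem
  have hfin := hpar.t (sg c i j ++ R.reverse).length (by omega)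
  rw [List.length_append, sg_len] at hfin
  omega

end Pool.Agent.W538.CH
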